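import Pool.Agent.Q238.MK.Swap

/-!
# Products of a fine multiset with an inverse descent class

For every finite multiset `B` of permutations in `S_n` whose generating function `Q(B)` is symmetric
(so for every fine set or multiset `B`; Schur positivity is not needed) and every `J`,
`Q(B D_{n,J}^{-1}) = Q(D_{n,J}^{-1} B)`.

Idea of the proof: pass to the classes `Des(π⁻¹) ⊆ K` and to the coefficients of the monomials
`x_{r 1} ... x_{r n}` (`r` weakly increasing). The set of `π` with `Des(π⁻¹) ⊆ K` for which `b π` is
increasing on the fibres of `r` is counted by the minimal double coset representatives `ρ` such that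
`b` is increasing on the fibres of the common refinement of two Young subgroups (a Mackey formula for
single permutations); for `π b` the same representatives occur, with the two coordinates exchanged, and
the symmetry of `Q(B)` exchanges them back.
-/

set_option autoImplicit false

namespace Pool.Agent.Results.MP_4faf9f_co.SymmetricProductsCommute

open Q238.MK

/-- For every `n`, every finite multiset `B` of permutations of `Fin n` (that is, in `S_n`) whose
`Q(B)` is a symmetric function, and every `J`: `Q(B D_{n,J}^{-1}) = Q(D_{n,J}^{-1} B)`. -/
theorem result (n : ℕ) (B : Multiset (Equiv.Perm (Fin n))) (hB : IsSym (genQ B)) (J : Finset ℕ) :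
    genQ (mulMS B (invDes n J)) = genQ (mulMS (invDes n J) B) :=
  Q238.MK.main B hB J

end Pool.Agent.Results.MP_4faf9f_co.SymmetricProductsCommute
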